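import Pool.Agent.Lib_MP_cc69c8_ins.Defs

/-! Columns and graphs: almost disjoint families which are not selectively (a). -/

set_option autoImplicit false

namespace Pool.Agent.SelA

/-- `code f k` codes the restriction of `f` to `{0, ..., k}`, and is at least `f k`. -/
def code (f : ℕ → ℕ) (k : ℕ) : ℕ :=
  Nat.pair (f k) (Encodable.encode ((List.range k).map f))

theorem le_code (f : ℕ → ℕ) (k : ℕ) : f k ≤ code f k := Nat.left_le_pair _ _

theorem code_inj {f g : ℕ → ℕ} {k : ℕ} (h : code f k = code g k) :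
    ∀ j, j ≤ k → f j = g j := by
  unfold code at h
  rw [Nat.pair_eq_pair] at h
  obtain ⟨h1, h2⟩ := h
  have h3 := Encodable.encode_injective h2
  rw [List.map_inj_left] at h3
  intro j hj
  rcases Nat.lt_or_ge j k with hlt | hge
  · exact h3 j (List.mem_range.mpr hlt)
  · have : j = k := le_antisymm hj hge
    rw [this]; exact h1

/-- The graph of `code f`, as a subset of `ℕ` through the pairing function. -/
def graph (f : ℕ → ℕ) : Set ℕ := Set.range (fun k => Nat.pair k (code f k))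

/-- The `m`-th column. -/
def col (m : ℕ) : Set ℕ := Set.range (fun j => Nat.pair m j)

theorem graph_infinite (f : ℕ → ℕ) : (graph f).Infinite := by
  apply Set.infinite_range_of_injective
  intro a b h
  exact (Nat.pair_eq_pair.mp h).1

theorem col_infinite (m : ℕ) : (col m).Infinite := by
  apply Set.infinite_range_of_injective
  intro a b h
  exact (Nat.pair_eq_pair.mp h).2

theorem graph_injective : Function.Injective graph := by
  intro f g h
  funext j
  have : Nat.pair j (code f j) ∈ graph g := by rw [← h]; exact ⟨j, rfl⟩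
  obtain ⟨k, hk⟩ := this
  have hk' := Nat.pair_eq_pair.mp hk
  have h1 : k = j := hk'.1
  subst h1
  exact (code_inj hk'.2 k le_rfl).symm

theorem graph_inter_finite {f g : ℕ → ℕ} (h : f ≠ g) : (graph f ∩ graph g).Finite := by
  obtain ⟨j, hj⟩ := Function.ne_iff.mp h
  apply (Set.finite_lt_nat j).image (fun k => Nat.pair k (code f k)) |>.subset
  rintro x ⟨⟨k, hk⟩, ⟨l, hl⟩⟩
  have hkl : Nat.pair k (code f k) = Nat.pair l (code g l) := by
    simp only at hk hl
    rw [hk, hl]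
  have h2 := Nat.pair_eq_pair.mp hkl
  have h1 : k = l := h2.1
  subst h1
  refine ⟨k, ?_, hk⟩
  by_contra hcon
  exact hj (code_inj h2.2 j (not_lt.mp hcon))

theorem col_inter_finite {m n : ℕ} (h : m ≠ n) : (col m ∩ col n).Finite := by
  have : col m ∩ col n = ∅ := by
    ext x
    simp only [Set.mem_inter_iff, Set.mem_empty_iff_false, iff_false]
    rintro ⟨⟨k, hk⟩, ⟨l, hl⟩⟩
    have hkl : Nat.pair m k = Nat.pair n l := by
      simp only at hk hl
      rw [hk, hl]
    exact h (Nat.pair_eq_pair.mp hkl).1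
  rw [this]; exact Set.finite_empty

theorem col_graph_finite (m : ℕ) (f : ℕ → ℕ) : (col m ∩ graph f).Finite := by
  apply (Set.finite_singleton (Nat.pair m (code f m))).subset
  rintro x ⟨⟨k, hk⟩, ⟨l, hl⟩⟩
  have hkl : Nat.pair m k = Nat.pair l (code f l) := by
    simp only at hk hl
    rw [hk, hl]
  have h2 := (Nat.pair_eq_pair.mp hkl).1
  subst h2
  exact hl.symm

/-- The almost disjoint family: all columns, and the graphs for `f` in `D1`. -/
def fam (D1 : Set (ℕ → ℕ)) : Set (Set ℕ) := Set.range col ∪ graph '' D1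

theorem fam_infinite (D1 : Set (ℕ → ℕ)) : ∀ a ∈ fam D1, a.Infinite := by
  rintro a (⟨m, rfl⟩ | ⟨f, -, rfl⟩)
  · exact col_infinite m
  · exact graph_infinite f

theorem fam_ad (D1 : Set (ℕ → ℕ)) : ∀ a ∈ fam D1, ∀ b ∈ fam D1, a ≠ b → (a ∩ b).Finite := by
  rintro a (⟨m, rfl⟩ | ⟨f, -, rfl⟩) b (⟨n, rfl⟩ | ⟨g, -, rfl⟩) hab
  · exact col_inter_finite (fun h => hab (by rw [h]))
  · exact col_graph_finite m g
  · rw [Set.inter_comm]; exact col_graph_finite n f
  · exact graph_inter_finite (fun h => hab (by rw [h]))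

/-- A dominating family is infinite. -/
theorem dom_infinite {D : Set (ℕ → ℕ)} (hD : IsDominating D) : D.Infinite := by
  intro hfin
  obtain ⟨g, hg, hgf⟩ := hD (fun n => ∑ h ∈ hfin.toFinset, h n + 1)
  obtain ⟨n, hn⟩ := hgf.exists
  have : g n ≤ ∑ h ∈ hfin.toFinset, h n :=
    Finset.single_le_sum (f := fun h : ℕ → ℕ => h n) (fun _ _ => Nat.zero_le _)
      (hfin.mem_toFinset.mpr hg)
  omega

/-- The translates of the members of `D`. -/
def shifts (D : Set (ℕ → ℕ)) : Set (ℕ → ℕ) :=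
  Set.range (fun p : D × ℕ => fun k => (p.1 : ℕ → ℕ) k + p.2)

theorem shifts_dom {D : Set (ℕ → ℕ)} (hD : IsDominating D) :
    ∀ f : ℕ → ℕ, ∃ g ∈ shifts D, ∀ n, f n ≤ g n := by
  intro f
  obtain ⟨g, hg, hgf⟩ := hD f
  obtain ⟨N, hN⟩ := Filter.eventually_atTop.mp hgf
  refine ⟨fun k => g k + ∑ i ∈ Finset.range N, f i, ⟨(⟨g, hg⟩, ∑ i ∈ Finset.range N, f i), rfl⟩, ?_⟩
  intro n
  show f n ≤ g n + ∑ i ∈ Finset.range N, f i
  rcases Nat.lt_or_ge n N with h | h
  · have : f n ≤ ∑ i ∈ Finset.range N, f i :=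
      Finset.single_le_sum (f := f) (fun _ _ => Nat.zero_le _) (Finset.mem_range.mpr h)
    omega
  · exact le_trans (hN n h) (Nat.le_add_right _ _)

theorem mk_fam {D : Set (ℕ → ℕ)} (hD : D.Infinite) :
    Cardinal.mk (fam (shifts D)) = Cardinal.mk D := by
  have hal : Cardinal.aleph0 ≤ Cardinal.mk D := by
    rw [Cardinal.aleph0_le_mk_iff]
    exact hD.to_subtype
  apply le_antisymm
  · have h1 : Cardinal.mk (fam (shifts D)) ≤ Cardinal.mk (Set.range col)
        + Cardinal.mk (graph '' (shifts D)) := Cardinal.mk_union_le _ _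
    have h2 : Cardinal.mk (Set.range col) ≤ Cardinal.mk D :=
      le_trans (by simpa using (Cardinal.mk_range_le (f := col))) hal
    have h3 : Cardinal.mk (graph '' (shifts D)) ≤ Cardinal.mk D := by
      refine le_trans Cardinal.mk_image_le ?_
      refine le_trans (Cardinal.mk_range_le) ?_
      rw [Cardinal.mk_prod]
      simp only [Cardinal.lift_id, Cardinal.mk_nat]
      exact Cardinal.mul_le_of_le hal le_rfl hal
    exact le_trans h1 (Cardinal.add_le_of_le hal h2 h3)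
  · have h4 : D ⊆ shifts D := by
      intro f hf
      exact ⟨(⟨f, hf⟩, 0), rfl⟩
    calc Cardinal.mk D ≤ Cardinal.mk (shifts D) := Cardinal.mk_le_mk_of_subset h4
      _ = Cardinal.mk (graph '' (shifts D)) := (Cardinal.mk_image_eq graph_injective).symm
      _ ≤ Cardinal.mk (fam (shifts D)) := Cardinal.mk_le_mk_of_subset Set.subset_union_right

/-- Families obtained from dominating families are not selectively (a). -/
theorem not_sel {D : Set (ℕ → ℕ)} (hD : IsDominating D) :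
    ¬ SelectivelyA (Psi (fam (shifts D))) := by
  intro hsel
  let init : ℕ → Set ℕ := fun n => {x | (Nat.unpair x).1 < n}
  have hfin : ∀ (a : fam (shifts D)) (n : ℕ), (∃ f ∈ shifts D, graph f = a) →
      ((a : Set ℕ) ∩ init n).Finite := by
    rintro a n ⟨f, -, hf⟩
    rw [← hf]
    apply ((Set.finite_lt_nat n).image (fun k => Nat.pair k (code f k))).subset
    rintro x ⟨⟨k, rfl⟩, hx⟩
    refine ⟨k, ?_, rfl⟩
    simpa [init] using hx
  let U : ℕ → Set (Set (Psi (fam (shifts D)))) := fun n =>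
    {s | ∃ k : ℕ, s = {Psi.pt k}} ∪
    {s | ∃ a : fam (shifts D), (∃ m, col m = a) ∧ s = insert (Psi.lim a) (Psi.pt '' (a : Set ℕ))} ∪
    {s | ∃ a : fam (shifts D), (∃ f ∈ shifts D, graph f = a) ∧ (¬ ∃ m, col m = a) ∧
        s = insert (Psi.lim a) (Psi.pt '' ((a : Set ℕ) \ init n))}
  have hU : ∀ n, (∀ u ∈ U n, IsOpen u) ∧ ⋃₀ U n = Set.univ := by
    intro n
    constructor
    · rintro u ((⟨k, rfl⟩ | ⟨a, -, rfl⟩) | ⟨a, ha, -, rfl⟩)
      · intro b hb
        simp at hb
      · intro b hb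
        have hab : b = a := by simpa using hb
        subst hab
        refine Set.finite_empty.subset ?_
        rintro k ⟨hk, hkn⟩
        exact hkn (Or.inr ⟨k, hk, rfl⟩)
      · intro b hb
        have hab : b = a := by simpa using hb
        subst hab
        refine (hfin b n ha).subset ?_
        rintro k ⟨hk, hkn⟩
        refine ⟨hk, ?_⟩
        by_contra hcon
        exact hkn (Or.inr ⟨k, ⟨hk, hcon⟩, rfl⟩)
    · rw [Set.eq_univ_iff_forall]
      rintro (k | a)
      · exact ⟨{Psi.pt k}, Or.inl (Or.inl ⟨k, rfl⟩), rfl⟩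
      · by_cases hc : ∃ m, col m = a
        · exact ⟨_, Or.inl (Or.inr ⟨a, hc, rfl⟩), Set.mem_insert _ _⟩
        · have hg : ∃ f ∈ shifts D, graph f = a := by
            rcases a.2 with ⟨m, hm⟩ | ⟨f, hf, hfa⟩
            · exact absurd ⟨m, hm⟩ hc
            · exact ⟨f, hf, hfa⟩
          exact ⟨_, Or.inr ⟨a, hg, hc, rfl⟩, Set.mem_insert _ _⟩
  have hdense : Dense (Set.range (Psi.pt : ℕ → Psi (fam (shifts D)))) := by
    intro x
    rw [mem_closure_iff]
    intro V hV hx
    rcases x with k | a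
    · exact ⟨Psi.pt k, hx, ⟨k, rfl⟩⟩
    · obtain ⟨y, hy, hyn⟩ := ((fam_infinite _ a.1 a.2).sdiff (hV a hx)).nonempty
      have hyV : Psi.pt y ∈ V := by
        by_contra hcon
        exact hyn ⟨hy, hcon⟩
      exact ⟨Psi.pt y, hyV, ⟨y, rfl⟩⟩
  obtain ⟨F, hF, hcov⟩ := hsel U hU _ hdense
  have hbd : ∀ n k : ℕ, ∃ b : ℕ, ∀ m, Psi.pt (Nat.pair k m) ∈ F n → m < b := by
    intro n k
    have hopen : IsOpen (F n)ᶜ := (hF n).2.1.isOpen_compl
    have hx : Psi.lim ⟨col k, Or.inl ⟨k, rfl⟩⟩ ∈ (F n)ᶜ := by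
      intro hx
      obtain ⟨y, hy⟩ := (hF n).1 hx
      cases hy
    have h1 := hopen _ hx
    have hfin2 : {m | Psi.pt (Nat.pair k m) ∈ F n}.Finite := by
      refine (h1.preimage (f := fun m => Nat.pair k m) ?_).subset ?_
      · intro a _ b _ h
        exact (Nat.pair_eq_pair.mp h).2
      · intro m hm
        exact ⟨⟨m, rfl⟩, fun h => h hm⟩
    obtain ⟨b, hb⟩ := hfin2.bddAbove
    exact ⟨b + 1, fun m hm => Nat.lt_succ_of_le (hb hm)⟩
  choose b hb using hbd
  obtain ⟨g, hg, hgb⟩ := shifts_dom hD (fun k => ∑ n ∈ Finset.range (k + 1), b n k)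
  have hin : Psi.lim ⟨graph g, Or.inr ⟨g, hg, rfl⟩⟩ ∈ ⋃ n, star (F n) (U n) := by
    rw [hcov]
    exact Set.mem_univ _
  obtain ⟨n, hn⟩ := Set.mem_iUnion.mp hin
  obtain ⟨u, ⟨hu, y, hyu, hyF⟩, hxu⟩ := hn
  have hnotcol : ¬ ∃ m, col m = graph g := by
    rintro ⟨m, hm⟩
    apply col_infinite m
    have := col_graph_finite m g
    rwa [← hm, Set.inter_self] at this
  rcases hu with (⟨k, rfl⟩ | ⟨a, ⟨m, hm⟩, rfl⟩) | ⟨a, ha, hnc, rfl⟩
  · simp at hxu
  · have hga : (⟨graph g, Or.inr ⟨g, hg, rfl⟩⟩ : fam (shifts D)) = a := by simpa using hxu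
    apply hnotcol
    refine ⟨m, ?_⟩
    rw [hm, ← hga]
  · have hga : (⟨graph g, Or.inr ⟨g, hg, rfl⟩⟩ : fam (shifts D)) = a := by simpa using hxu
    have hga' : (a : Set ℕ) = graph g := by rw [← hga]
    obtain ⟨z, rfl⟩ := (hF n).1 hyF
    rcases hyu with h | ⟨z', ⟨hz1, hz2⟩, hz3⟩
    · cases h
    · have hzz : z' = z := by simpa using hz3
      subst hzz
      rw [hga'] at hz1
      obtain ⟨k, hk⟩ := hz1
      simp only at hk
      subst hk
      have hkn : n ≤ k := by
        by_contra hcon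
        apply hz2
        simpa [init] using (not_le.mp hcon)
      have h1 := hb n k _ hyF
      have h2 : b n k ≤ ∑ n ∈ Finset.range (k + 1), b n k :=
        Finset.single_le_sum (f := fun n => b n k) (fun _ _ => Nat.zero_le _)
          (Finset.mem_range.mpr (Nat.lt_succ_of_le hkn))
      have h3 := hgb k
      have h4 := le_code g k
      omega

/-- The dominating number is attained. -/
theorem exists_dom : ∃ D : Set (ℕ → ℕ), IsDominating D ∧ Cardinal.mk D = dominatingNumber := by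
  have hne : {κ | ∃ D : Set (ℕ → ℕ), IsDominating D ∧ Cardinal.mk D = κ}.Nonempty :=
    ⟨_, Set.univ, fun f => ⟨f, Set.mem_univ _, Filter.Eventually.of_forall (fun _ => le_rfl)⟩, rfl⟩
  exact csInf_mem hne

/-- Almost disjoint families of fewer than `𝔡` sets are selectively (a). -/
theorem sel_of_lt {A : Set (Set ℕ)} (hA : IsAD A) (h : Cardinal.mk A < dominatingNumber) :
    SelectivelyA (Psi A) := by
  intro 𝒰 h𝒰 D hD
  have hpt : ∀ k, IsOpen ({Psi.pt k} : Set (Psi A)) := by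
    intro k a ha
    cases ha
  have hDpt : ∀ k, Psi.pt k ∈ D := by
    intro k
    obtain ⟨x, hx, hxD⟩ := hD.inter_open_nonempty _ (hpt k) ⟨_, rfl⟩
    rw [Set.mem_singleton_iff] at hx
    rwa [← hx]
  have hex : ∀ (a : A) (n : ℕ), ∃ k : ℕ, ∃ u ∈ 𝒰 n, Psi.lim a ∈ u ∧ Psi.pt k ∈ u := by
    intro a n
    have h1 : Psi.lim a ∈ ⋃₀ 𝒰 n := by
      rw [(h𝒰 n).2]
      exact Set.mem_univ _
    obtain ⟨u, hu, hau⟩ := h1
    obtain ⟨k, hk, hkn⟩ := ((hA.1 a.1 a.2).sdiff ((h𝒰 n).1 u hu a hau)).nonempty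
    refine ⟨k, u, hu, hau, ?_⟩
    by_contra hcon
    exact hkn ⟨hk, hcon⟩
  choose f u hu hau hfu using hex
  obtain ⟨g, hg⟩ : ∃ g : ℕ → ℕ, ∀ a : A, ¬ ∀ᶠ n in Filter.atTop, g n ≤ f a n := by
    by_contra hcon
    push Not at hcon
    have h1 : IsDominating (Set.range f) := by
      intro g
      obtain ⟨a, ha⟩ := hcon g
      exact ⟨f a, ⟨a, rfl⟩, ha⟩
    have h2 : dominatingNumber ≤ Cardinal.mk (Set.range f) := csInf_le' ⟨_, h1, rfl⟩
    exact absurd (h2.trans Cardinal.mk_range_le) (not_le.mpr h)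
  have hBfin : ∀ n, {k | k ≤ max (g n) n}.Finite := fun n => Set.finite_le_nat _
  refine ⟨fun n => Psi.pt '' {k | k ≤ max (g n) n}, fun n => ⟨?_, ?_, ?_⟩, ?_⟩
  · rintro x ⟨k, -, rfl⟩
    exact hDpt k
  · refine ⟨?_⟩
    intro a _
    refine (hBfin n).subset ?_
    rintro k ⟨-, hk⟩
    rw [Set.mem_compl_iff, not_not] at hk
    obtain ⟨k', hk', h⟩ := hk
    cases h
    exact hk'
  · rw [discreteTopology_iff_isOpen_singleton]
    rintro ⟨x, k, hk, rfl⟩
    have h1 : ({⟨Psi.pt k, ⟨k, hk, rfl⟩⟩} : Set (Psi.pt '' {k | k ≤ max (g n) n} : Set (Psi A))) =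
        Subtype.val ⁻¹' {Psi.pt k} := by
      ext y
      simp only [Set.mem_singleton_iff, Set.mem_preimage]
      exact Subtype.ext_iff
    rw [h1]
    exact (hpt k).preimage continuous_subtype_val
  · rw [Set.eq_univ_iff_forall]
    intro x
    rw [Set.mem_iUnion]
    rcases x with k | a
    · have h1 : Psi.pt k ∈ ⋃₀ 𝒰 k := by
        rw [(h𝒰 k).2]
        exact Set.mem_univ _
      obtain ⟨v, hv, hkv⟩ := h1
      exact ⟨k, v, ⟨hv, Psi.pt k, hkv, ⟨k, show k ≤ max (g k) k from le_max_right _ _, rfl⟩⟩, hkv⟩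
    · have h1 := hg a
      rw [Filter.not_eventually] at h1
      obtain ⟨n, hn⟩ := h1.exists
      exact ⟨n, u a n, ⟨hu a n, Psi.pt (f a n), hfu a n,
        ⟨f a n, (le_of_lt (not_le.mp hn)).trans (le_max_left _ _), rfl⟩⟩, hau a n⟩

theorem fam_isAD (D : Set (ℕ → ℕ)) : IsAD (fam (shifts D)) :=
  ⟨fam_infinite _, fun a ha b hb hab => fam_ad _ a ha b hb hab⟩

end Pool.Agent.SelA
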