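import Mathlib

/-! Definitions: the dominating number, almost disjoint families, Psi-spaces, selectively (a) spaces. -/

set_option autoImplicit false

namespace Pool.Agent.SelA

/-- `D` is a dominating family of functions: each function is eventually bounded by a member. -/
def IsDominating (D : Set (ℕ → ℕ)) : Prop :=
  ∀ f : ℕ → ℕ, ∃ g ∈ D, ∀ᶠ n in Filter.atTop, f n ≤ g n

/-- The dominating number `𝔡`: the least cardinality of a dominating family. -/
noncomputable def dominatingNumber : Cardinal.{0} :=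
  sInf {κ | ∃ D : Set (ℕ → ℕ), IsDominating D ∧ Cardinal.mk D = κ}

/-- An almost disjoint family: infinite subsets of `ℕ` any two of which have finite intersection. -/
def IsAD (A : Set (Set ℕ)) : Prop :=
  (∀ a ∈ A, a.Infinite) ∧ A.Pairwise fun a b => (a ∩ b).Finite

/-- The underlying set `ω ∪ A` of the Psi-space of `A`: the points `pt k`, `k ∈ ω`, and the points
`lim a`, `a ∈ A`. -/
inductive Psi (A : Set (Set ℕ)) : Type
  | pt : ℕ → Psi A
  | lim : A → Psi A

/-- The topology of the Psi-space: `U` is open if and only if for each point `a ∈ A` of `U` the set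
`U` contains all but finitely many elements of `a`. (So the elements of `ω` are isolated and the sets
`{a} ∪ (a \ F)`, `F` finite, form a neighbourhood basis at `a`.) -/
instance (A : Set (Set ℕ)) : TopologicalSpace (Psi A) where
  IsOpen U := ∀ a : A, Psi.lim a ∈ U → {k : ℕ | k ∈ (a : Set ℕ) ∧ Psi.pt k ∉ U}.Finite
  isOpen_univ := by
    intro a _
    simp
  isOpen_inter := by
    intro U V hU hV a ha
    refine ((hU a ha.1).union (hV a ha.2)).subset ?_
    rintro k ⟨hk, hkn⟩
    by_cases h : Psi.pt k ∈ U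
    · exact Or.inr ⟨hk, fun h' => hkn ⟨h, h'⟩⟩
    · exact Or.inl ⟨hk, h⟩
  isOpen_sUnion := by
    rintro S hS a ⟨U, hU, haU⟩
    refine (hS U hU a haU).subset ?_
    rintro k ⟨hk, hkn⟩
    exact ⟨hk, fun h => hkn ⟨U, hU, h⟩⟩

/-- The star `St(B, 𝒰)`: the union of the members of `𝒰` which meet `B`. -/
def star {X : Type} (B : Set X) (𝒰 : Set (Set X)) : Set X :=
  ⋃₀ {U | U ∈ 𝒰 ∧ (U ∩ B).Nonempty}

/-- The space `X` is selectively (a): for each sequence `𝒰 n` of open covers and each dense set `D`
there are sets `B n ⊆ D`, closed and discrete in `X`, such that the stars `St(B n, 𝒰 n)` cover `X`. -/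
def SelectivelyA (X : Type) [TopologicalSpace X] : Prop :=
  ∀ 𝒰 : ℕ → Set (Set X), (∀ n, (∀ U ∈ 𝒰 n, IsOpen U) ∧ ⋃₀ 𝒰 n = Set.univ) →
    ∀ D : Set X, Dense D →
      ∃ B : ℕ → Set X, (∀ n, B n ⊆ D ∧ IsClosed (B n) ∧ DiscreteTopology (B n)) ∧
        ⋃ n, star (B n) (𝒰 n) = Set.univ

end Pool.Agent.SelA
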